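import Pool.Agent.H34.ED.Mono

/-!
# Constant Hodge structure: two cusps which commute with a complex structure commute
-/

namespace H34.ED

section real
variable {W : Type*} [AddCommGroup W] [Module ℝ W] {E : W →ₗ[ℝ] W →ₗ[ℝ] ℝ}
  (hE : ∀ x, E x x = 0) {J : W →ₗ[ℝ] W} (hJ : ∀ x, J (J x) = -x)
  (hEJ : ∀ x y, E (J x) (J y) = E x y) (hpos : ∀ x, x ≠ 0 → 0 < E x (J x))

lemma swapR (hE : ∀ x, E x x = 0) (x y : W) : E x y = - E y x := by
  have h := hE (x + y)
  simp only [map_add, LinearMap.add_apply, hE] at h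
  linarith

include hE hJ hpos in
/-- A transvection does not commute with `J`. -/
lemma node_false {T : W →ₗ[ℝ] W} {v : W} (hv : v ≠ 0) {g : ℝ} (hg : 0 < g)
    (hT : ∀ x, T x = x + (E x v / g) • v) (hc : ∀ x, J (T x) = T (J x)) : False := by
  have h1 := hc (J v)
  rw [hT, hT, hJ] at h1
  simp only [map_add, map_smul, hJ, map_neg, LinearMap.neg_apply, hE, neg_zero, zero_div,
    zero_smul, add_zero] at h1
  have h2 : (E (J v) v / g) • J v = 0 := by
    have : -v + (E (J v) v / g) • J v = -v + 0 := by rw [h1, add_zero]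
    exact add_left_cancel this
  have h3 := hpos v hv
  rw [swapR hE] at h3
  rcases smul_eq_zero.1 h2 with h | h
  · rw [div_eq_zero_iff] at h
    rcases h with h | h
    · linarith
    · linarith
  · rw [h] at h3
    simp at h3

include hE hJ hpos in
/-- The complex structure on the plane of a cusp. -/
lemma cusp_J {T : W →ₗ[ℝ] W} {c e : W} {g : ℝ} (hg : 0 < g) (hce : E c e = g)
    (hT : ∀ x, T x = x + ((E x c - E x e) / g) • c + (E x e / g) • e)
    (hc : ∀ x, J (T x) = T (J x)) :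
    ∃ r : ℝ, 0 < r ∧ 3 * r ^ 2 = 1 ∧ J c = r • ((2 : ℝ) • e - c) ∧ J e = r • (e - (2 : ℝ) • c) := by
  have hg' := hg.ne'
  have hTc : T c = e := by
    rw [hT, hE, hce, div_self hg', zero_sub, neg_div, div_self hg']
    module
  have hTe : T e = e - c := by
    rw [hT, hE, swapR hE, hce, sub_zero, neg_div, div_self hg']
    module
  obtain ⟨a, b, hab⟩ : ∃ a b : ℝ, J c = a • c + b • e := by
    have h1 := hc e
    rw [hTe, hT (J e), map_sub] at h1
    refine ⟨-((E (J e) c - E (J e) e) / g), -(E (J e) e / g), ?_⟩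
    have : J c = J e - (J e - J c) := by abel
    rw [this, h1]
    module
  have hJe : J e = (-b) • c + (a + b) • e := by
    have h1 := hc c
    rw [hTc, hab] at h1
    rw [h1, map_add, map_smul, map_smul, hTc, hTe]
    module
  have hc0 : c ≠ 0 := by
    rintro rfl
    simp at hce
    exact hg' hce.symm
  have hb : 0 < b := by
    have := hpos c hc0
    rw [hab] at this
    simp only [map_add, map_smul, smul_eq_mul, hE, hce] at this
    nlinarith
  have hJJ := hJ c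
  rw [hab, map_add, map_smul, map_smul, hab, hJe] at hJJ
  have e1 := congrArg (fun x => E x e) hJJ
  have e2 := congrArg (fun x => E c x) hJJ
  simp only [map_add, map_smul, map_neg, LinearMap.add_apply, LinearMap.smul_apply,
    LinearMap.neg_apply, smul_eq_mul, hE, hce] at e1 e2
  have e3 : a ^ 2 - b ^ 2 = -1 := by
    have : g * (a ^ 2 - b ^ 2) = g * (-1) := by linear_combination e1
    exact mul_left_cancel₀ hg' this
  have e4 : b * (2 * a + b) = 0 := by
    have : g * (b * (2 * a + b)) = g * 0 := by linear_combination e2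
    exact mul_left_cancel₀ hg' this
  have e5 : 2 * a + b = 0 := (mul_eq_zero.1 e4).resolve_left hb.ne'
  have e6 : b = -2 * a := by linarith
  refine ⟨-a, by linarith, ?_, ?_, ?_⟩
  · rw [e6] at e3
    nlinarith
  · rw [hab, e6]
    module
  · rw [hJe, e6]
    module

lemma r_unique {r s : ℝ} (hr : 0 < r) (hr3 : 3 * r ^ 2 = 1) (hs : 0 < s) (hs3 : 3 * s ^ 2 = 1) :
    r = s := by
  nlinarith [sq_nonneg (r - s), sq_nonneg (r + s)]

section two
variable {c₁ e₁ c₂ e₂ : W} {g₁ g₂ r : ℝ} (hg₁ : 0 < g₁) (hg₂ : 0 < g₂) (hr : 0 < r)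
  (hr3 : 3 * r ^ 2 = 1) (h₁ : E c₁ e₁ = g₁) (h₂ : E c₂ e₂ = g₂)
  (hc₁ : J c₁ = r • ((2 : ℝ) • e₁ - c₁)) (he₁ : J e₁ = r • (e₁ - (2 : ℝ) • c₁))
  (hc₂ : J c₂ = r • ((2 : ℝ) • e₂ - c₂)) (he₂ : J e₂ = r • (e₂ - (2 : ℝ) • c₂))

include hEJ hr3 hc₁ hc₂ he₂ in
/-- The relations between the four intersection numbers. -/
lemma rel : E c₁ e₂ + E e₁ c₂ = E c₁ c₂ ∧ E e₁ e₂ = E c₁ c₂ := by
  have e1 := hEJ c₁ c₂
  have e2 := hEJ c₁ e₂
  rw [hc₁, hc₂] at e1
  rw [hc₁, he₂] at e2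
  simp only [map_sub, map_smul, LinearMap.sub_apply, LinearMap.smul_apply, smul_eq_mul] at e1 e2
  constructor
  · have hr2 : r ^ 2 = 1 / 3 := by linarith
    have e1' : r ^ 2 * (4 * E e₁ e₂ - 2 * E e₁ c₂ - 2 * E c₁ e₂ + E c₁ c₂) = E c₁ c₂ := by
      linear_combination e1
    have e2' : r ^ 2 * (2 * E e₁ e₂ - 4 * E e₁ c₂ - E c₁ e₂ + 2 * E c₁ c₂) = E c₁ e₂ := by
      linear_combination e2
    rw [hr2] at e1' e2'
    linarith
  · have hr2 : r ^ 2 = 1 / 3 := by linarith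
    have e1' : r ^ 2 * (4 * E e₁ e₂ - 2 * E e₁ c₂ - 2 * E c₁ e₂ + E c₁ c₂) = E c₁ c₂ := by
      linear_combination e1
    have e2' : r ^ 2 * (2 * E e₁ e₂ - 4 * E e₁ c₂ - E c₁ e₂ + 2 * E c₁ c₂) = E c₁ e₂ := by
      linear_combination e2
    rw [hr2] at e1' e2'
    linarith

include hE hJ hEJ hpos hg₁ hr hr3 h₁ h₂ hc₁ hc₂ in
/-- Cauchy–Schwarz. -/
lemma cauchy :
    E c₁ e₂ ^ 2 - E c₁ c₂ * E c₁ e₂ + E c₁ c₂ ^ 2 ≤ g₁ * g₂ ∧
    (E c₁ e₂ ^ 2 - E c₁ c₂ * E c₁ e₂ + E c₁ c₂ ^ 2 = g₁ * g₂ →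
      ∃ α β : ℝ, c₂ = α • c₁ + β • J c₁ ∧ (α ^ 2 + β ^ 2) * g₁ = g₂) := by
  have hr2 : r ^ 2 = 1 / 3 := by linarith
  set P := E c₁ c₂ with hP
  set Q := E c₁ e₂ with hQ
  -- the Hermitian numbers
  have n1 : E c₁ (J c₁) = 2 * r * g₁ := by
    rw [hc₁]
    simp only [map_sub, map_smul, smul_eq_mul, hE, h₁]
    ring
  have n2 : E c₂ (J c₂) = 2 * r * g₂ := by
    rw [hc₂]
    simp only [map_sub, map_smul, smul_eq_mul, hE, h₂]
    ring
  have a1 : E c₁ (J c₂) = r * (2 * Q - P) := by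
    rw [hc₂]
    simp only [map_sub, map_smul, smul_eq_mul]
    rfl
  have a2 : E c₂ (J c₁) = r * (2 * Q - P) := by
    have h := hEJ c₂ (J c₁)
    rw [hJ] at h
    simp only [map_neg] at h
    rw [← h, ← a1, swapR hE (J c₂) c₁]
    ring
  have p1 : E c₂ c₁ = -P := swapR hE _ _
  have p2 : E (J c₁) (J c₂) = P := hEJ _ _
  have p3 : E (J c₁) c₁ = -(2 * r * g₁) := by rw [swapR hE, n1]
  have p4 : E (J c₁) (J c₁) = 0 := hE _
  have hN : 0 < 2 * r * g₁ := by positivity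
  -- the difference to the projection
  set x := (2 * r * g₁) • c₂ - (r * (2 * Q - P)) • c₁ - P • J c₁ with hx
  have hval : E x (J x) = 2 * r * g₁ * (4 / 3 * (g₁ * g₂ - (Q ^ 2 - P * Q + P ^ 2))) := by
    rw [hx]
    simp only [map_sub, map_smul, LinearMap.sub_apply, LinearMap.smul_apply, smul_eq_mul, hJ,
      map_neg]
    rw [n1, n2, a1, a2, p1, p2, p3, p4, hE c₁]
    have e3 : r ^ 3 = r / 3 := by
      have : r ^ 3 = r * r ^ 2 := by ring
      rw [this, hr2]; ring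
    have hPP : E c₁ c₂ = P := rfl
    try rw [hPP]
    ring_nf
    simp only [e3]
    ring_nf
  constructor
  · by_contra hlt
    push Not at hlt
    have hx0 : x ≠ 0 := by
      intro h0
      rw [h0] at hval
      simp only [map_zero] at hval
      nlinarith
    have := hpos x hx0
    rw [hval] at this
    nlinarith
  · intro heq
    have hx0 : x = 0 := by
      by_contra hne
      have := hpos x hne
      rw [hval, heq] at this
      simp at this
    refine ⟨r * (2 * Q - P) / (2 * r * g₁), P / (2 * r * g₁), ?_, ?_⟩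
    · have : (2 * r * g₁) • c₂ = (r * (2 * Q - P)) • c₁ + P • J c₁ := by
        rw [← sub_eq_zero, ← hx0, hx]
        abel
      rw [← inv_smul_smul₀ hN.ne' c₂, this, smul_add, smul_smul, smul_smul]
      congr 2 <;> field_simp
    · have hN2 : (2 * r * g₁) ^ 2 = 4 / 3 * g₁ ^ 2 := by
        rw [mul_pow, mul_pow, hr2]; ring
      rw [div_pow, div_pow, ← add_div, hN2, mul_pow, hr2, div_mul_eq_mul_div,
        div_eq_iff (by positivity)]
      linear_combination (4 / 3 * g₁) * heq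

include hJ hg₁ hg₂ hr3 hc₁ hc₂ in
/-- Two cusps with the same plane are equal. -/
lemma same {α β : ℝ} (hαβ : c₂ = α • c₁ + β • J c₁) (hg : (α ^ 2 + β ^ 2) * g₁ = g₂) (x : W) :
    ((E x c₁ - E x e₁) / g₁) • c₁ + (E x e₁ / g₁) • e₁ =
      ((E x c₂ - E x e₂) / g₂) • c₂ + (E x e₂ / g₂) • e₂ := by
  have key : ∀ c e : W, J c = r • ((2 : ℝ) • e - c) → e = (1 / 2 : ℝ) • (c + (3 * r) • J c) := by
    intro c e h
    rw [h, smul_smul]
    have : 3 * r * r = 1 := by rw [← hr3]; ring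
    rw [this]
    module
  have k1 := key c₁ e₁ hc₁
  have k2 := key c₂ e₂ hc₂
  have hJc : J c₂ = α • J c₁ - β • c₁ := by
    rw [hαβ, map_add, map_smul, map_smul, hJ]
    module
  rw [hJc] at k2
  generalize J c₁ = w at *
  rw [k2, k1, hαβ]
  simp only [map_add, map_sub, map_smul, smul_eq_mul]
  generalize E x c₁ = X
  generalize E x w = Y
  have h9 : r ^ 2 = 1 / 3 := by linarith
  have hab : α ^ 2 + β ^ 2 ≠ 0 := by
    intro h0
    rw [h0, zero_mul] at hg
    linarith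
  subst hg
  match_scalars
  · field_simp
    linear_combination (-3 * (β ^ 2 * X - α * β * Y)) * hr3
  · field_simp
    linear_combination (3 * (β ^ 2 * Y + α * β * X)) * hr3

end two

end real

/-- A linear map of the real space is determined by the lattice. -/
lemma ext_inc {W : Type*} [AddCommGroup W] [Module ℝ W] {F G : V →ₗ[ℝ] W}
    (h : ∀ x : L, F (inc x) = G (inc x)) : F = G := by
  apply (Pi.basisFun ℝ (Fin 4)).ext
  intro i
  have h1 : (Pi.basisFun ℝ (Fin 4)) i = inc (Pi.single i 1) := by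
    ext j
    simp only [Pi.basisFun_apply, inc]
    by_cases hij : j = i
    · subst hij; simp
    · simp [hij]
  rw [h1]
  exact h _

lemma inc_add (x y : L) : inc (x + y) = inc x + inc y := by
  ext i; simp [inc]

lemma inc_smul (a : ℤ) (x : L) : inc (a • x) = (a : ℝ) • inc x := by
  ext i; simp [inc]

lemma inc_inj {x y : L} (h : inc x = inc y) : x = y := by
  ext i
  have := congrFun h i
  simpa [inc] using this

/-- The real extensions of the isometries commute with a complex structure for which `E` is a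
positive form: the Hodge structure is constant. -/
def Const {Γ : Type*} [Group Γ] (E : L →ₗ[ℤ] L →ₗ[ℤ] ℤ) (ρ : Γ →* (L ≃ₗ[ℤ] L)) : Prop :=
  ∃ (J : V →ₗ[ℝ] V) (ER : V →ₗ[ℝ] V →ₗ[ℝ] ℝ),
    (∀ x y : L, ER (inc x) (inc y) = E x y) ∧ (∀ x, J (J x) = -x) ∧
    (∀ x y, ER (J x) (J y) = ER x y) ∧ (∀ x, x ≠ 0 → 0 < ER x (J x)) ∧
    ∀ γ, ∃ T : V →ₗ[ℝ] V, (∀ x : L, T (inc x) = inc (ρ γ x)) ∧ ∀ x, J (T x) = T (J x)

section final
variable {E : L →ₗ[ℤ] L →ₗ[ℤ] ℤ} (hE : ∀ x, E x x = 0)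
  {J : V →ₗ[ℝ] V} {ER : V →ₗ[ℝ] V →ₗ[ℝ] ℝ} (hER : ∀ x y : L, ER (inc x) (inc y) = E x y)
  (hJ : ∀ x, J (J x) = -x) (hEJ : ∀ x y, ER (J x) (J y) = ER x y)
  (hpos : ∀ x, x ≠ 0 → 0 < ER x (J x))

include hE hER in
lemma altR : ∀ x : V, ER x x = 0 := by
  have h : ER = - ER.flip := by
    apply ext_inc
    intro x
    apply ext_inc
    intro y
    simp only [LinearMap.neg_apply, LinearMap.flip_apply, hER]
    exact_mod_cast alt_swap hE x y
  intro x
  have h1 := congrArg (fun F : V →ₗ[ℝ] V →ₗ[ℝ] ℝ => F x x) h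
  simp only [LinearMap.neg_apply, LinearMap.flip_apply] at h1
  linarith

include hE hER hJ hpos in
lemma not_node {T : L → L} {g : ℕ} (hT : Node E T g) {F : V →ₗ[ℝ] V}
    (hF : ∀ x : L, F (inc x) = inc (T x)) (hc : ∀ x, J (F x) = F (J x)) : False := by
  obtain ⟨hg, v, hv, hT⟩ := hT
  have hg0 : (0 : ℝ) < g := by exact_mod_cast hg
  have hv' : inc v ≠ 0 := by
    intro h0
    apply hv
    apply inc_inj
    rw [h0]
    ext i; simp [inc]
  refine node_false (altR hE hER) hJ hpos hv' hg0 (T := F) ?_ hc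
  have : F = LinearMap.id + ((g : ℝ)⁻¹ • ER.flip (inc v)).smulRight (inc v) := by
    apply ext_inc
    intro x
    obtain ⟨a, h1, h2⟩ := hT x
    rw [hF, h1, inc_add, inc_smul]
    simp only [LinearMap.add_apply, LinearMap.id_apply, LinearMap.smulRight_apply,
      LinearMap.smul_apply, LinearMap.flip_apply, hER, h2, smul_eq_mul]
    push_cast
    rw [inv_mul_cancel_left₀ hg0.ne']
  intro x
  rw [this]
  simp only [LinearMap.add_apply, LinearMap.id_apply, LinearMap.smulRight_apply,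
      LinearMap.smul_apply, LinearMap.flip_apply, smul_eq_mul]
  rw [div_eq_inv_mul]

/-- The data of a cusp which commutes with `J`. -/
structure CuspR (E : L →ₗ[ℤ] L →ₗ[ℤ] ℤ) (J : V →ₗ[ℝ] V) (T : L → L) (g : ℕ) (c e : L) (r : ℝ) :
    Prop where
  pos : 0 < g
  ce : E c e = g
  form : ∀ x, ∃ a b : ℤ, T x = x + a • c + b • e ∧ E x e = g * b ∧ E x c = g * (a + b)
  rpos : 0 < r
  r3 : 3 * r ^ 2 = 1
  Jc : J (inc c) = r • ((2 : ℝ) • inc e - inc c)
  Je : J (inc e) = r • (inc e - (2 : ℝ) • inc c)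

include hE hER hJ hpos in
lemma cuspR {T : L → L} {g : ℕ} (hT : Cusp E T g) {F : V →ₗ[ℝ] V}
    (hF : ∀ x : L, F (inc x) = inc (T x)) (hc : ∀ x, J (F x) = F (J x)) :
    ∃ c e r, CuspR E J T g c e r := by
  obtain ⟨hg, c, e, hce, hT⟩ := hT
  have hg0 : (0 : ℝ) < g := by exact_mod_cast hg
  have hce' : ER (inc c) (inc e) = g := by rw [hER, hce]; simp
  have hform : F = LinearMap.id +
      ((g : ℝ)⁻¹ • (ER.flip (inc c) - ER.flip (inc e))).smulRight (inc c) +
      ((g : ℝ)⁻¹ • ER.flip (inc e)).smulRight (inc e) := by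
    apply ext_inc
    intro x
    obtain ⟨a, b, h1, h2, h3⟩ := hT x
    rw [hF, h1, inc_add, inc_add, inc_smul, inc_smul]
    simp only [LinearMap.add_apply, LinearMap.id_apply, LinearMap.smulRight_apply,
      LinearMap.smul_apply, LinearMap.flip_apply, LinearMap.sub_apply, hER, h2, h3, smul_eq_mul]
    push_cast
    rw [inv_mul_cancel_left₀ hg0.ne']
    congr 3
    field_simp
    ring
  have hform' : ∀ x, F x = x + ((ER x (inc c) - ER x (inc e)) / g) • inc c +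
      (ER x (inc e) / g) • inc e := by
    intro x
    rw [hform]
    simp only [LinearMap.add_apply, LinearMap.id_apply, LinearMap.smulRight_apply,
      LinearMap.smul_apply, LinearMap.flip_apply, LinearMap.sub_apply, smul_eq_mul]
    rw [div_eq_inv_mul, div_eq_inv_mul]
  obtain ⟨r, h1, h2, h3, h4⟩ := cusp_J (altR hE hER) hJ hpos hg0 hce' hform' hc
  exact ⟨c, e, r, hg, hce, hT, h1, h2, h3, h4⟩

include hE hER hJ hEJ hpos in
/-- Two cusps which commute with `J` commute. -/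
lemma cusps_comm {T₁ T₂ : L → L} {g₁ g₂ : ℕ} {c₁ e₁ c₂ e₂ : L} {r₁ r₂ : ℝ}
    (H₁ : CuspR E J T₁ g₁ c₁ e₁ r₁) (H₂ : CuspR E J T₂ g₂ c₂ e₂ r₂) (x : L) :
    T₁ (T₂ x) = T₂ (T₁ x) := by
  have hr : r₁ = r₂ := r_unique H₁.rpos H₁.r3 H₂.rpos H₂.r3
  subst hr
  obtain ⟨hQR, hS⟩ := rel hEJ H₁.r3 H₁.Jc H₂.Jc H₂.Je
  rw [hER, hER, hER] at hQR
  rw [hER, hER] at hS
  have hQR' : E c₁ e₂ + E e₁ c₂ = E c₁ c₂ := by exact_mod_cast hQR
  have hS' : E e₁ e₂ = E c₁ c₂ := by exact_mod_cast hS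
  have hg₁ : (0 : ℝ) < g₁ := by exact_mod_cast H₁.pos
  have hg₂ : (0 : ℝ) < g₂ := by exact_mod_cast H₂.pos
  have hz₁ : (g₁ : ℤ) ≠ 0 := by exact_mod_cast H₁.pos.ne'
  have hz₂ : (g₂ : ℤ) ≠ 0 := by exact_mod_cast H₂.pos.ne'
  have hh₁ : ER (inc c₁) (inc e₁) = g₁ := by rw [hER, H₁.ce]; simp
  have hh₂ : ER (inc c₂) (inc e₂) = g₂ := by rw [hER, H₂.ce]; simp
  obtain ⟨hle, heq⟩ := cauchy (altR hE hER) hJ hEJ hpos hg₁ H₁.rpos H₁.r3 hh₁ hh₂ H₁.Jc H₂.Jc
  rw [hER, hER] at hle heq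
  -- the divisibilities
  have d2 : (g₂ : ℤ) ∣ E c₁ e₂ ∧ (g₂ : ℤ) ∣ E c₁ c₂ := by
    obtain ⟨a, b, -, h2, h3⟩ := H₂.form c₁
    exact ⟨⟨b, h2⟩, ⟨a + b, h3⟩⟩
  have d1 : (g₁ : ℤ) ∣ E c₁ e₂ ∧ (g₁ : ℤ) ∣ E c₁ c₂ := by
    obtain ⟨a, b, -, h2, h3⟩ := H₁.form c₂
    rw [alt_swap hE] at h2 h3
    have h4 : E c₁ c₂ = g₁ * (-(a + b)) := by linarith
    have h5 : E e₁ c₂ = g₁ * (-b) := by linarith
    refine ⟨⟨-a, ?_⟩, ⟨-(a + b), h4⟩⟩
    linear_combination hQR' + h4 - h5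
  set P := E c₁ c₂ with hP
  set Q := E c₁ e₂ with hQ
  have hdvd : (g₁ : ℤ) * g₂ ∣ Q ^ 2 - P * Q + P ^ 2 := by
    refine dvd_add (dvd_sub ?_ ?_) ?_
    · rw [sq]; exact mul_dvd_mul d1.1 d2.1
    · exact mul_dvd_mul d1.2 d2.1
    · rw [sq]; exact mul_dvd_mul d1.2 d2.2
  have hle' : Q ^ 2 - P * Q + P ^ 2 ≤ (g₁ : ℤ) * g₂ := by exact_mod_cast hle
  obtain ⟨k, hk⟩ := hdvd
  have hgg : (0 : ℤ) < (g₁ : ℤ) * g₂ := by
    have := H₁.pos
    have := H₂.pos
    positivity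
  have hk1 : k ≤ 1 := by
    by_contra hcon
    push Not at hcon
    nlinarith
  have hk0 : 0 ≤ k := by
    by_contra hcon
    push Not at hcon
    nlinarith [sq_nonneg (2 * Q - P), sq_nonneg P]
  obtain ⟨a₁, b₁, f1, f2, f3⟩ := H₁.form x
  obtain ⟨a₂, b₂, f4, f5, f6⟩ := H₂.form x
  rcases (by omega : k = 0 ∨ k = 1) with hk' | hk'
  · -- orthogonal planes
    rw [hk', mul_zero] at hk
    have hP0 : P = 0 := by nlinarith [sq_nonneg (2 * Q - P), sq_nonneg P]
    have hQ0 : Q = 0 := by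
      rw [hP0] at hk
      have : Q ^ 2 = 0 := by linarith
      exact pow_eq_zero_iff (two_ne_zero) |>.1 this
    have hR0 : E e₁ c₂ = 0 := by linarith
    have hS0 : E e₁ e₂ = 0 := by linarith
    obtain ⟨a₃, b₃, f7, f8, f9⟩ := H₁.form (T₂ x)
    obtain ⟨a₄, b₄, f10, f11, f12⟩ := H₂.form (T₁ x)
    rw [f4] at f8 f9
    rw [f1] at f11 f12
    simp only [map_add, LinearMap.add_apply, map_smul, LinearMap.smul_apply, smul_eq_mul] at f8 f9 f11 f12
    rw [alt_swap hE c₂ e₁, alt_swap hE e₂ e₁, f2, hR0, hS0] at f8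
    rw [alt_swap hE c₂ c₁, alt_swap hE e₂ c₁, f3, ← hP, ← hQ, hP0, hQ0] at f9
    rw [← hQ, hQ0, hS0, f5] at f11
    rw [← hP, hP0, hR0, f6] at f12
    have g1 : b₃ = b₁ := mul_left_cancel₀ hz₁ (by linarith)
    have g2 : a₃ + b₃ = a₁ + b₁ := mul_left_cancel₀ hz₁ (by linarith)
    have g3 : b₄ = b₂ := mul_left_cancel₀ hz₂ (by linarith)
    have g4 : a₄ + b₄ = a₂ + b₂ := mul_left_cancel₀ hz₂ (by linarith)
    have g5 : a₃ = a₁ := by linarith
    have g6 : a₄ = a₂ := by linarith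
    rw [f7, f10, f4, f1, g1, g5, g3, g6]
    abel
  · -- the same plane
    rw [hk', mul_one] at hk
    have hk'' : ((Q : ℝ) ^ 2 - P * Q + P ^ 2) = g₁ * g₂ := by exact_mod_cast hk
    obtain ⟨α, β, h5, h6⟩ := heq hk''
    have hsame : ∀ y, T₁ y = T₂ y := by
      intro y
      obtain ⟨a₁, b₁, f1, f2, f3⟩ := H₁.form y
      obtain ⟨a₂, b₂, f4, f5, f6⟩ := H₂.form y
      have h7 := same hJ hg₁ hg₂ H₁.r3 H₁.Jc H₂.Jc h5 h6 (E := ER) (inc y)
      rw [hER, hER, hER, hER, f2, f3, f5, f6] at h7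
      apply inc_inj
      rw [f1, f4]
      simp only [inc_add, inc_smul]
      have k1 : (((g₁ * (a₁ + b₁) : ℤ) : ℝ) - ((g₁ * b₁ : ℤ) : ℝ)) / g₁ = a₁ := by
        push_cast; field_simp; ring
      have k2 : ((g₁ * b₁ : ℤ) : ℝ) / g₁ = b₁ := by
        push_cast; field_simp
      have k3 : (((g₂ * (a₂ + b₂) : ℤ) : ℝ) - ((g₂ * b₂ : ℤ) : ℝ)) / g₂ = a₂ := by
        push_cast; field_simp; ring
      have k4 : ((g₂ * b₂ : ℤ) : ℝ) / g₂ = b₂ := by
        push_cast; field_simp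
      rw [k1, k2, k3, k4] at h7
      rw [add_assoc, add_assoc, h7]
    rw [hsame, hsame]

end final

namespace Mono
variable {Γ : Type*} [Group Γ] {E : L →ₗ[ℤ] L →ₗ[ℤ] ℤ} {ρ : Γ →* (L ≃ₗ[ℤ] L)} {M : Set Γ}

/-- The Hodge structure is not constant. -/
theorem noConst (H : Mono E ρ M) : ¬ Const E ρ := by
  rintro ⟨J, ER, hER, hJ, hEJ, hpos, hext⟩
  -- every generator is a cusp
  have hcusp : ∀ γ ∈ M, ∃ g c e r, CuspR E J (ρ γ) g c e r := by
    intro γ hγ
    obtain ⟨F, hF, hc⟩ := hext γ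
    obtain ⟨g, hg | hg⟩ := H.mer γ hγ
    · exact (not_node H.alt hER hJ hpos hg hF hc).elim
    · obtain ⟨c, e, r, h⟩ := cuspR H.alt hER hJ hpos hg hF hc
      exact ⟨g, c, e, r, h⟩
  obtain ⟨γ₀, hγ₀⟩ := H.ne
  obtain ⟨g, c, e, r, hC⟩ := hcusp γ₀ hγ₀
  -- `γ₀` commutes with the group
  let S : Subgroup Γ :=
    { carrier := {γ | ∀ x, ρ γ₀ (ρ γ x) = ρ γ (ρ γ₀ x)}
      mul_mem' := by
        intro a b ha hb x
        rw [map_mul, LinearEquiv.mul_apply, LinearEquiv.mul_apply, ha, hb]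
      one_mem' := by
        intro x
        rw [map_one]
        rfl
      inv_mem' := by
        intro a ha x
        have h1 : ρ a⁻¹ (ρ γ₀ (ρ a (ρ a⁻¹ x))) = ρ a⁻¹ (ρ a (ρ γ₀ (ρ a⁻¹ x))) := by rw [ha]
        have h2 : ∀ y, ρ a (ρ a⁻¹ y) = y := by
          intro y
          rw [← LinearEquiv.mul_apply, ← map_mul, mul_inv_cancel, map_one]
          rfl
        have h3 : ∀ y, ρ a⁻¹ (ρ a y) = y := by
          intro y
          rw [← LinearEquiv.mul_apply, ← map_mul, inv_mul_cancel, map_one]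
          rfl
        rw [h2, h3] at h1
        exact h1.symm }
  have hS : S = ⊤ := by
    rw [eq_top_iff, ← H.gen, Subgroup.closure_le]
    intro γ hγ
    obtain ⟨g', c', e', r', hC'⟩ := hcusp γ hγ
    intro x
    exact cusps_comm H.alt hER hJ hEJ hpos hC hC' x
  have hcomm : ∀ γ x, ρ γ₀ (ρ γ x) = ρ γ (ρ γ₀ x) := by
    intro γ
    have : γ ∈ S := by rw [hS]; trivial
    exact this
  -- the invariant form of rank two
  let N : L →ₗ[ℤ] L := (ρ γ₀ : L →ₗ[ℤ] L) - LinearMap.id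
  have hN : ∀ x, N x = ρ γ₀ x - x := fun x => rfl
  obtain ⟨a, b, ha, hab⟩ := H.inv (E.compl₁₂ N N)
    (fun x => by rw [LinearMap.compl₁₂_apply]; exact H.alt _)
    (fun γ x y => by
      rw [LinearMap.compl₁₂_apply, LinearMap.compl₁₂_apply, hN, hN, hN, hN, hcomm, hcomm,
        ← map_sub, ← map_sub, H.isom])
  have hval : ∀ x y, a * E (ρ γ₀ x - x) (ρ γ₀ y - y) = b * E x y := by
    intro x y
    have := congrArg (fun F : L →ₗ[ℤ] L →ₗ[ℤ] ℤ => F x y) hab
    simpa only [LinearMap.smul_apply, LinearMap.compl₁₂_apply, hN, smul_eq_mul] using this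
  obtain ⟨hTc, hTe⟩ := cusp_vals H.alt hC.pos hC.ce hC.form
  have hg : (g : ℤ) ≠ 0 := by exact_mod_cast hC.pos.ne'
  have hb : b ≠ 0 := by
    intro hb0
    have := hval c e
    rw [hTc, hTe, hb0, zero_mul] at this
    simp only [map_sub, LinearMap.sub_apply, sub_sub_cancel_left, map_neg, H.alt, hC.ce,
      alt_swap H.alt e c] at this
    rcases mul_eq_zero.1 this with h | h
    · exact ha h
    · apply hg; linarith
  -- every vector is in the plane
  have hfix : ∀ y, E y e = 0 → E y c = 0 → y = 0 := by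
    intro y hy1 hy2
    obtain ⟨a', b', h1, h2, h3⟩ := hC.form y
    rw [hy1] at h2
    rw [hy2] at h3
    have hb' : b' = 0 := (mul_eq_zero.1 h2.symm).resolve_left hg
    have hab' : a' + b' = 0 := (mul_eq_zero.1 h3.symm).resolve_left hg
    have ha' : a' = 0 := by linarith
    rw [ha', hb'] at h1
    apply H.nd
    intro x
    have := hval x y
    rw [h1] at this
    simp only [zero_smul, add_zero, sub_self, map_zero, mul_zero] at this
    exact (mul_eq_zero.1 this.symm).resolve_left hb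
  have hspan : ∀ x : L, x ∈ Submodule.span ℤ ({c, e} : Set L) := by
    intro x
    obtain ⟨a', b', -, h2, h3⟩ := hC.form x
    have h0 : x - b' • c + (a' + b') • e = 0 := by
      apply hfix
      · simp only [map_add, map_sub, LinearMap.add_apply, LinearMap.sub_apply, map_smul,
          LinearMap.smul_apply, smul_eq_mul, hC.ce, H.alt, h2]
        ring
      · simp only [map_add, map_sub, LinearMap.add_apply, LinearMap.sub_apply, map_smul,
          LinearMap.smul_apply, smul_eq_mul, H.alt, h3, alt_swap H.alt e c, hC.ce]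
        ring
    have h1 : x = b' • c + (-(a' + b')) • e := by
      rw [← sub_eq_zero, ← h0]
      module
    rw [h1]
    exact Submodule.add_mem _ (Submodule.smul_mem _ _ (Submodule.subset_span (by simp)))
      (Submodule.smul_mem _ _ (Submodule.subset_span (by simp)))
  have htop : Submodule.span ℤ ({c, e} : Set L) = ⊤ := eq_top_iff.2 fun x _ => hspan x
  have h4 : Module.finrank ℤ (Submodule.span ℤ ({c, e} : Set L)) ≤ 2 := by
    classical
    have := finrank_span_finset_le_card (R := ℤ) ({c, e} : Finset L)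
    rw [Finset.coe_insert, Finset.coe_singleton] at this
    exact this.trans (Finset.card_le_two)
  rw [htop, finrank_top] at h4
  simp at h4

end Mono

end H34.ED
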