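import Pool.Agent.H50.ED.Spec
import Pool.Agent.H34.ED.Iso

/-!
# Modules H and I: no Humbert surface, no constant period map
-/

namespace H34.ED

open Pool.Agent.H50.ED Pool.Agent.H10.Alb

/-- The form as a bilinear map. -/
def EL (d : ℕ) : L →ₗ[ℤ] L →ₗ[ℤ] ℤ :=
  LinearMap.mk₂ ℤ (E d) (by intros; simp only [E, Pi.add_apply]; ring)
    (by intros; simp only [E, Pi.smul_apply, smul_eq_mul]; ring)
    (by intros; simp only [E, Pi.add_apply]; ring)
    (by intros; simp only [E, Pi.smul_apply, smul_eq_mul]; ring)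

lemma EL_apply (d : ℕ) (x y : L) : EL d x y = E d x y := rfl

/-- The real form as a bilinear map. -/
def ERL (d : ℕ) : V →ₗ[ℝ] V →ₗ[ℝ] ℝ :=
  LinearMap.mk₂ ℝ (ER d) (by intros; simp only [ER, Pi.add_apply]; ring)
    (by intros; simp only [ER, Pi.smul_apply, smul_eq_mul]; ring)
    (by intros; simp only [ER, Pi.add_apply]; ring)
    (by intros; simp only [ER, Pi.smul_apply, smul_eq_mul]; ring)

lemma ERL_apply (d : ℕ) (x y : V) : ERL d x y = ER d x y := rfl

/-- The real extension as a linear map. -/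
def extL (T : Aut) : V →ₗ[ℝ] V where
  toFun := Pool.Agent.H50.ED.ext T
  map_add' x y := by
    funext i
    simp only [Pool.Agent.H50.ED.ext, Pi.add_apply, mul_add, Finset.sum_add_distrib]
  map_smul' a x := by
    funext i
    simp only [Pool.Agent.H50.ED.ext, Pi.smul_apply, smul_eq_mul, RingHom.id_apply,
      Finset.mul_sum]
    exact Finset.sum_congr rfl fun j _ => by ring

lemma extL_inc (T : Aut) (x : L) : extL T (inc x) = inc (T x) := by
  funext i
  have h : T x = ∑ j, x j • T (Pi.single j 1) := by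
    conv_lhs => rw [← (Pi.basisFun ℤ (Fin 4)).sum_repr x]
    rw [map_sum]
    exact Finset.sum_congr rfl fun j _ => by
      rw [map_smul, Pi.basisFun_repr, Pi.basisFun_apply]
  change ∑ j, ((T (Pi.single j 1) i : ℤ) : ℝ) * (x j : ℝ) = ((T x i : ℤ) : ℝ)
  rw [h]
  simp only [Finset.sum_apply, Pi.smul_apply, smul_eq_mul]
  push_cast
  exact Finset.sum_congr rfl fun j _ => mul_comm _ _

section conj
variable {d g : ℕ}

lemma node_of (hg : 0 < g) {T S R : Aut} {v : L} (h : IsNode d g T v)
    (hiso : ∀ a b, E d (S a) (S b) = E d a b) (hSR : ∀ x, S (R x) = x) :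
    Node (EL d) (fun x => S (T (R x))) g := by
  obtain ⟨hprim, f, h1, ⟨x0, hx0⟩, h2⟩ := h
  refine ⟨hg, S v, ?_, fun x => ⟨f (R x), ?_, ?_⟩⟩
  · intro h0
    have hv : v = 0 := by
      apply S.injective
      rw [h0, map_zero]
    apply hprim 2 Nat.prime_two
    intro j
    rw [hv]
    simp
  · show S (T (R x)) = x + f (R x) • S v
    rw [h2, map_add, map_smul, hSR]
  · rw [EL_apply, ← h1, ← hiso (R x) v, hSR]

lemma cusp_of (hg : 0 < g) {T S R : Aut} (h : IsCusp d g T)
    (hiso : ∀ a b, E d (S a) (S b) = E d a b) (hSR : ∀ x, S (R x) = x) :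
    Cusp (EL d) (fun x => S (T (R x))) g := by
  obtain ⟨c, e, hce, hc, he, hfix, hdiv⟩ := h
  have hgz : (g : ℤ) ≠ 0 := by exact_mod_cast hg.ne'
  refine ⟨hg, S c, S e, ?_, fun x => ?_⟩
  · rw [EL_apply, hiso, hce]
  obtain ⟨⟨s, hs⟩, ⟨b, hb⟩⟩ := hdiv (R x)
  refine ⟨s - b, b, ?_, ?_, ?_⟩
  · have hec : E d e c = -g := by
      rw [← hce]; simp only [E]; ring
    have hcc : E d c c = 0 := by simp only [E]; ring
    have hee : E d e e = 0 := by simp only [E]; ring
    have h1 : EL d (R x - b • c + s • e) c = 0 := by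
      simp only [map_add, map_sub, LinearMap.add_apply, LinearMap.sub_apply, map_smul,
        LinearMap.smul_apply, smul_eq_mul, EL_apply, hs, hcc, hec]
      ring
    have h2 : EL d (R x - b • c + s • e) e = 0 := by
      simp only [map_add, map_sub, LinearMap.add_apply, LinearMap.sub_apply, map_smul,
        LinearMap.smul_apply, smul_eq_mul, EL_apply, hb, hce, hee]
      ring
    have h3 := hfix _ h1 h2
    rw [map_add, map_sub, map_smul, map_smul, hc, he] at h3
    have h4 : T (R x) = R x + (s - b) • c + b • e := by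
      have h5 : T (R x) = (T (R x) - b • e + s • (e - c)) + b • e - s • (e - c) := by abel
      rw [h5, h3]
      module
    show S (T (R x)) = x + (s - b) • S c + b • S e
    rw [h4, map_add, map_add, map_smul, map_smul, hSR]
  · rw [EL_apply, ← hb, ← hiso (R x) e, hSR]
  · rw [EL_apply, sub_add_cancel, ← hs, ← hiso (R x) c, hSR]

end conj

section data
variable {d b2 : ℕ} {b3 : ℕ} {H : Type} [AddCommGroup H] {q : H → H → ℤ}
  {C : Chern b2 b3 q} {int : H → H → ℚ} {Par : Paramodular d} (D : Data d b2 C int Par)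

/-- The meridians. -/
def merid : Set D.Gam := {γ | ∃ i δ, γ = δ * D.mer i * δ⁻¹}

theorem mono : Mono (EL d) D.rho (merid D) := by
  have hclosN : (Subgroup.closure (merid D)).Normal := by
    constructor
    intro n hn γ
    induction hn using Subgroup.closure_induction with
    | mem x hx =>
      obtain ⟨i, δ, rfl⟩ := hx
      exact Subgroup.subset_closure ⟨i, γ * δ, by group⟩
    | one => simp
    | mul x y _ _ hx hy =>
      have : γ * (x * y) * γ⁻¹ = (γ * x * γ⁻¹) * (γ * y * γ⁻¹) := by group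
      rw [this]
      exact Subgroup.mul_mem _ hx hy
    | inv x _ hx =>
      have : γ * x⁻¹ * γ⁻¹ = (γ * x * γ⁻¹)⁻¹ := by group
      rw [this]
      exact Subgroup.inv_mem _ hx
  refine ⟨?_, ?_, ?_, ?_, ?_, ?_, ?_⟩
  · intro x
    rw [EL_apply]; simp only [E]; ring
  · intro y hy
    have hd : d ≠ 0 := D.d_pos.ne'
    have h0 := hy (Pi.single 0 1)
    have h1 := hy (Pi.single 1 1)
    have h2 := hy (Pi.single 2 1)
    have h3 := hy (Pi.single 3 1)
    simp [EL_apply, E, hd] at h0 h1 h2 h3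
    funext i
    fin_cases i
    · exact h1
    · exact h0
    · exact h3
    · exact h2
  · intro γ x y
    exact D.symp γ x y
  · by_contra hemp
    have hI : IsEmpty D.I := by
      constructor
      intro i
      exact hemp ⟨D.mer i, i, 1, by group⟩
    have := D.euler
    simp at this
    omega
  · exact D.gen _ hclosN fun i => Subgroup.subset_closure ⟨i, 1, by group⟩
  · rintro γ ⟨i, δ, rfl⟩
    have hSR : ∀ x, D.rho δ (D.rho δ⁻¹ x) = x := by
      intro x
      rw [← LinearEquiv.mul_apply, ← map_mul, mul_inv_cancel, map_one]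
      rfl
    have hfun : ∀ x, D.rho (δ * D.mer i * δ⁻¹) x = D.rho δ (D.rho (D.mer i) (D.rho δ⁻¹ x)) := by
      intro x
      rw [map_mul, map_mul]
      rfl
    have hfun' : (⇑(D.rho (δ * D.mer i * δ⁻¹)) : L → L) =
        fun x => D.rho δ (D.rho (D.mer i) (D.rho δ⁻¹ x)) := funext hfun
    refine ⟨D.g i, ?_⟩
    rw [hfun']
    rcases D.loc i with ⟨-, v, hv⟩ | ⟨-, hc⟩
    · exact Or.inl (node_of (D.g_pos i) hv (D.symp δ) hSR)
    · exact Or.inr (cusp_of (D.g_pos i) hc (D.symp δ) hSR)
  · intro B hB hinv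
    obtain ⟨m, n, hm, h⟩ := D.inv B hB hinv
    refine ⟨m, n, hm, ?_⟩
    refine LinearMap.ext fun x => LinearMap.ext fun y => ?_
    simpa [EL_apply] using h x y

end data

theorem humbert : HumbertStatement := by
  intro d b2 b3 H _ q C int Par D h
  obtain ⟨m, n, hm, heq⟩ := (mono D).noRM h.B h.alt h.sign
  apply h.indep
  refine ⟨m, n, hm, fun x y => ?_⟩
  have := congrArg (fun F : L →ₗ[ℤ] L →ₗ[ℤ] ℤ => F x y) heq
  simpa [EL_apply] using this

theorem iso : IsoStatement := by
  intro d b2 b3 H _ q C int Par D h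
  refine (mono D).noConst ⟨h.J, ERL d, ?_, h.sq, h.symp, h.pos, fun γ => ⟨extL (D.rho γ), extL_inc _,
    h.comm γ⟩⟩
  intro x y
  simp only [ERL_apply, EL_apply, ER, E, inc]
  push_cast
  ring

end H34.ED
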