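import Mathlib

/-!
# The order of the norm of a paramodular form along the 1-cusps

`K d = (ℤ/d)²` is the group of a polarisation of type `(1,d)`, `pair` the Weil pairing. A primitive
vector `v` of the lattice with divisor `g` gives the element `u = v/g` of order `g`. If `G` is a
subgroup of order `p`, the quotient by `G` is of type `(1,d/p)`, the vector becomes `m` times a
primitive one (`m = #(⟨u⟩ ∩ G)`) with divisor `g/(m r)` (`r = #e(u,G)`), and the Picard–Lefschetz
transvection of `v` is the power `m/r` of the one of the new primitive vector.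
-/

namespace H34.ED

open AddSubgroup

/-- The group `(ℤ/d)²` of a polarisation of type `(1,d)`. -/
abbrev K (d : ℕ) := ZMod d × ZMod d

/-- The Weil pairing `e(x,y) = x₁ y₂ - x₂ y₁`. -/
def pair {d : ℕ} (x : K d) : K d →+ ZMod d where
  toFun y := x.1 * y.2 - x.2 * y.1
  map_zero' := by simp
  map_add' y z := by simp; ring

/-- The number of elements of `⟨u⟩ ∩ G`. -/
noncomputable def mu {d : ℕ} (u : K d) (G : AddSubgroup (K d)) : ℕ :=
  Nat.card (zmultiples u ⊓ G : AddSubgroup (K d))

/-- The number of elements of `e(u,G)`. -/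
noncomputable def rho {d : ℕ} (u : K d) (G : AddSubgroup (K d)) : ℕ :=
  Nat.card (G.map (pair u))

lemma pair_self {d : ℕ} (x : K d) : pair x x = 0 := by
  simp [pair, mul_comm]

lemma pair_of_mem {d : ℕ} {u y : K d} (h : y ∈ zmultiples u) : pair u y = 0 := by
  obtain ⟨n, rfl⟩ := mem_zmultiples_iff.1 h
  rw [map_zsmul, pair_self, smul_zero]

section
variable {p d : ℕ} (hp : p.Prime)
include hp

lemma mu_cases (u : K d) {G : AddSubgroup (K d)} (hG : Nat.card G = p) :
    (mu u G = 1 ∧ ¬ G ≤ zmultiples u) ∨ (mu u G = p ∧ G ≤ zmultiples u) := by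
  have hf : Finite G := Nat.finite_of_card_ne_zero (by rw [hG]; exact hp.ne_zero)
  have h1 : mu u G ∣ p := by
    rw [← hG]
    exact AddSubgroup.card_dvd_of_le inf_le_right
  rcases (Nat.dvd_prime hp).1 h1 with h | h
  · refine Or.inl ⟨h, fun hle => ?_⟩
    have : mu u G = p := by
      unfold mu
      rw [inf_eq_right.2 hle, hG]
    rw [h] at this
    exact hp.one_lt.ne this
  · refine Or.inr ⟨h, ?_⟩
    have : (zmultiples u ⊓ G : AddSubgroup (K d)) = G := by
      apply AddSubgroup.eq_of_le_of_card_ge inf_le_right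
      rw [hG]
      exact h.ge
    exact inf_eq_right.1 this

lemma rho_cases (u : K d) {G : AddSubgroup (K d)} (hG : Nat.card G = p) :
    (rho u G = 1 ∧ ∀ y ∈ G, pair u y = 0) ∨ (rho u G = p ∧ ∃ y ∈ G, pair u y ≠ 0) := by
  have hf : Finite G := Nat.finite_of_card_ne_zero (by rw [hG]; exact hp.ne_zero)
  have h1 : rho u G ∣ p := by
    rw [← hG]
    exact AddSubgroup.card_dvd_of_surjective
      ((pair u).addSubgroupMap G) ((pair u).addSubgroupMap_surjective G)
  by_cases hy : ∃ y ∈ G, pair u y ≠ 0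
  · refine Or.inr ⟨?_, hy⟩
    rcases (Nat.dvd_prime hp).1 h1 with h | h
    · exfalso
      obtain ⟨y, hyG, hy⟩ := hy
      have hbot : G.map (pair u) = ⊥ := by
        rw [← AddSubgroup.card_eq_one]
        exact h
      exact hy ((AddSubgroup.map_eq_bot_iff _).1 hbot hyG)
    · exact h
  · push Not at hy
    refine Or.inl ⟨?_, hy⟩
    have hbot : G.map (pair u) = ⊥ := by
      rw [AddSubgroup.map_eq_bot_iff]
      intro y hyG
      exact hy y hyG
    unfold rho
    rw [hbot]
    simp

lemma nsmul_of_mem {G : AddSubgroup (K d)} (hG : Nat.card G = p) {y : K d} (hy : y ∈ G) :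
    p • y = 0 := by
  have hf : Finite G := Nat.finite_of_card_ne_zero (by rw [hG]; exact hp.ne_zero)
  have h := card_nsmul_eq_zero' (x := (⟨y, hy⟩ : G))
  rw [hG] at h
  simpa using congrArg Subtype.val h

omit hp in
lemma nsmul_pair (n : ℕ) (u y : K d) : n • pair u y = pair (n • u) y := by
  change n • (u.1 * y.2 - u.2 * y.1) = (n • u).1 * y.2 - (n • u).2 * y.1
  rw [Prod.smul_fst, Prod.smul_snd]
  simp only [nsmul_eq_mul]
  ring

omit hp in
lemma pair_nsmul (n : ℕ) (u y : K d) : pair u (n • y) = pair (n • u) y := by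
  rw [map_nsmul, nsmul_pair]

/-- If `G` is not orthogonal to `u`, then `p` divides the order of `u`. -/
lemma p_dvd_of_ne {u : K d} {G : AddSubgroup (K d)} (hG : Nat.card G = p)
    (h : ∃ y ∈ G, pair u y ≠ 0) : p ∣ addOrderOf u := by
  obtain ⟨y, hyG, hy⟩ := h
  have h1 : p • pair u y = 0 := by
    rw [← map_nsmul, nsmul_of_mem hp hG hyG, map_zero]
  have h2 : addOrderOf u • pair u y = 0 := by
    rw [nsmul_pair, addOrderOf_nsmul_eq_zero]
    simp [pair]
  by_contra hnd
  have hco : Nat.Coprime p (addOrderOf u) := (Nat.Prime.coprime_iff_not_dvd hp).2 hnd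
  apply hy
  have h3 : addOrderOf (pair u y) ∣ 1 := by
    rw [← hco]
    exact Nat.dvd_gcd (addOrderOf_dvd_of_nsmul_eq_zero h1) (addOrderOf_dvd_of_nsmul_eq_zero h2)
  exact AddMonoid.addOrderOf_eq_one_iff.1 (Nat.dvd_one.1 h3)

end

section
variable {p t : ℕ} (hp : p.Prime) (ht : 0 < t)
include hp ht

omit hp ht in
lemma nsmul_all (u : K (p * t)) : (p * t) • u = 0 := by
  ext
  · rw [Prod.smul_fst, nsmul_eq_mul, ZMod.natCast_self, zero_mul]; rfl
  · rw [Prod.smul_snd, nsmul_eq_mul, ZMod.natCast_self, zero_mul]; rfl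

/-- If the order of `u` does not divide `t` and `y` of order dividing `p` is orthogonal to `u`, then
`y` is a multiple of `u`. -/
lemma mem_of_orth {u y : K (p * t)} (hu : t • u ≠ 0) (hy : p • y = 0) (h : pair u y = 0) :
    y ∈ zmultiples u := by
  obtain ⟨u1, u2⟩ := u
  obtain ⟨y1, y2⟩ := y
  obtain ⟨a, rfl⟩ := ZMod.intCast_surjective u1
  obtain ⟨b, rfl⟩ := ZMod.intCast_surjective u2
  obtain ⟨c, rfl⟩ := ZMod.intCast_surjective y1
  obtain ⟨e, rfl⟩ := ZMod.intCast_surjective y2
  have hp0 : (p : ℤ) ≠ 0 := by exact_mod_cast hp.ne_zero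
  have ht0 : (t : ℤ) ≠ 0 := by exact_mod_cast ht.ne'
  have hpi : Prime (p : ℤ) := Nat.prime_iff_prime_int.1 hp
  have hdv : ∀ z : ℤ, ((z : ZMod (p * t)) = 0) ↔ ((p : ℤ) * t) ∣ z := by
    intro z
    rw [ZMod.intCast_zmod_eq_zero_iff_dvd]
    push_cast
    rfl
  have h1 := congrArg Prod.fst hy
  have h2 := congrArg Prod.snd hy
  simp only [Prod.smul_mk, nsmul_eq_mul, Prod.fst_zero, Prod.snd_zero] at h1 h2
  have hc : (t : ℤ) ∣ c := by
    have : (((p : ℤ) * c : ℤ) : ZMod (p * t)) = 0 := by push_cast; exact h1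
    rw [hdv] at this
    exact Int.dvd_of_mul_dvd_mul_left hp0 this
  have he : (t : ℤ) ∣ e := by
    have : (((p : ℤ) * e : ℤ) : ZMod (p * t)) = 0 := by push_cast; exact h2
    rw [hdv] at this
    exact Int.dvd_of_mul_dvd_mul_left hp0 this
  obtain ⟨c, rfl⟩ := hc
  obtain ⟨e, rfl⟩ := he
  have h3 : (p : ℤ) ∣ a * e - b * c := by
    have : ((a * (t * e) - b * (t * c) : ℤ) : ZMod (p * t)) = 0 := by
      push_cast
      simpa [pair] using h
    rw [hdv] at this
    have h4 : (t : ℤ) * p ∣ t * (a * e - b * c) := by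
      convert this using 1 <;> ring
    exact Int.dvd_of_mul_dvd_mul_left ht0 h4
  have h5 : ¬ ((p : ℤ) ∣ a ∧ (p : ℤ) ∣ b) := by
    rintro ⟨⟨a', rfl⟩, ⟨b', rfl⟩⟩
    apply hu
    ext
    · have : ((t * (p * a') : ℤ) : ZMod (p * t)) = 0 := by
        rw [hdv]
        exact ⟨a', by ring⟩
      simpa using this
    · have : ((t * (p * b') : ℤ) : ZMod (p * t)) = 0 := by
        rw [hdv]
        exact ⟨b', by ring⟩
      simpa using this
  -- enough: `l a ≡ c`, `l b ≡ e` modulo `p`
  have fin : ∀ l : ℤ, (p : ℤ) ∣ l * a - c → (p : ℤ) ∣ l * b - e →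
      ((((t : ℤ) * c : ℤ) : ZMod (p * t)), (((t : ℤ) * e : ℤ) : ZMod (p * t))) ∈
        zmultiples ((a : ZMod (p * t)), (b : ZMod (p * t))) := by
    intro l hl1 hl2
    rw [mem_zmultiples_iff]
    refine ⟨l * t, ?_⟩
    ext
    · simp only [Prod.smul_mk, zsmul_eq_mul]
      rw [← sub_eq_zero]
      have : ((l * t * a - t * c : ℤ) : ZMod (p * t)) = 0 := by
        rw [hdv]
        obtain ⟨x, hx⟩ := hl1
        exact ⟨x, by linear_combination (t : ℤ) * hx⟩
      push_cast at this ⊢
      exact this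
    · simp only [Prod.smul_mk, zsmul_eq_mul]
      rw [← sub_eq_zero]
      have : ((l * t * b - t * e : ℤ) : ZMod (p * t)) = 0 := by
        rw [hdv]
        obtain ⟨x, hx⟩ := hl2
        exact ⟨x, by linear_combination (t : ℤ) * hx⟩
      push_cast at this ⊢
      exact this
  by_cases hb : (p : ℤ) ∣ b
  · have ha : ¬ (p : ℤ) ∣ a := fun ha => h5 ⟨ha, hb⟩
    obtain ⟨x, y, hxy⟩ := (hpi.coprime_iff_not_dvd).2 ha
    refine fin (y * c) ⟨-(c * x), by linear_combination c * hxy⟩ ?_
    refine (hpi.dvd_or_dvd (a := a) (b := y * c * b - e) ?_).resolve_left ha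
    obtain ⟨z, hz⟩ := h3
    exact ⟨-(z + x * b * c), by linear_combination b * c * hxy - hz⟩
  · obtain ⟨x, y, hxy⟩ := (hpi.coprime_iff_not_dvd).2 hb
    refine fin (y * e) ?_ ⟨-(e * x), by linear_combination e * hxy⟩
    refine (hpi.dvd_or_dvd (a := b) (b := y * e * a - c) ?_).resolve_left hb
    obtain ⟨z, hz⟩ := h3
    exact ⟨z - x * a * e, by linear_combination a * e * hxy + hz⟩

/-- The divisor of the new vector divides the new level. -/
lemma div_dvd (u : K (p * t)) {G : AddSubgroup (K (p * t))} (hG : Nat.card G = p) :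
    addOrderOf u / (mu u G * rho u G) ∣ t := by
  have hpt : addOrderOf u ∣ p * t := by
    exact addOrderOf_dvd_of_nsmul_eq_zero (nsmul_all u)
  have key : p ∣ addOrderOf u → addOrderOf u / p ∣ t := by
    rintro ⟨c, hc⟩
    rw [hc] at hpt ⊢
    rw [Nat.mul_div_cancel_left _ hp.pos]
    exact Nat.dvd_of_mul_dvd_mul_left hp.pos hpt
  rcases mu_cases hp u hG with ⟨hm, hle⟩ | ⟨hm, hle⟩
  · rcases rho_cases hp u hG with ⟨hr, hz⟩ | ⟨hr, hz⟩
    · rw [hm, hr, mul_one, Nat.div_one]
      apply addOrderOf_dvd_of_nsmul_eq_zero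
      by_contra hne
      apply hle
      intro y hy
      exact mem_of_orth hp ht hne (nsmul_of_mem hp hG hy) (hz y hy)
    · rw [hm, hr, one_mul]
      exact key (p_dvd_of_ne hp hG hz)
  · have hr : rho u G = 1 := by
      rcases rho_cases hp u hG with ⟨hr, hz⟩ | ⟨hr, y, hy, hz⟩
      · exact hr
      · exact absurd (pair_of_mem (hle hy)) hz
    rw [hm, hr, mul_one]
    apply key
    have h1 : mu u G ∣ Nat.card (zmultiples u) := AddSubgroup.card_dvd_of_le inf_le_left
    rwa [hm, Nat.card_zmultiples] at h1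


omit hp ht in
lemma hdv (z : ℤ) : ((z : ZMod (p * t)) = 0) ↔ ((p : ℤ) * t) ∣ z := by
  rw [ZMod.intCast_zmod_eq_zero_iff_dvd]
  push_cast
  rfl

/-- The `p + 1` subgroups of order `p`. -/
def sub (p t : ℕ) (j : ℕ) : AddSubgroup (K (p * t)) :=
  if j = p then zmultiples (0, (t : ZMod (p * t)))
  else zmultiples ((t : ZMod (p * t)), ((j * t : ℕ) : ZMod (p * t)))

lemma t_ne : ((t : ℕ) : ZMod (p * t)) ≠ 0 := by
  have : NeZero (p * t) := ⟨(Nat.mul_pos hp.pos ht).ne'⟩
  intro h
  rw [ZMod.natCast_eq_zero_iff] at h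
  have h1 := Nat.le_of_dvd ht h
  have h2 := hp.two_le
  nlinarith

lemma card_sub (j : ℕ) : Nat.card (sub p t j) = p := by
  have : Fact p.Prime := ⟨hp⟩
  have hpt : ∀ x : ZMod (p * t), (p : ZMod (p * t)) * ((t : ZMod (p * t)) * x) = 0 := by
    intro x
    rw [← mul_assoc, ← Nat.cast_mul, ZMod.natCast_self, zero_mul]
  unfold sub
  split_ifs with h
  · rw [Nat.card_zmultiples]
    apply addOrderOf_eq_prime
    · ext
      · simp
      · simpa using hpt 1
    · intro h0
      exact t_ne hp ht (congrArg Prod.snd h0)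
  · rw [Nat.card_zmultiples]
    apply addOrderOf_eq_prime
    · ext
      · simpa using hpt 1
      · have := hpt j
        simp only [Prod.smul_mk, nsmul_eq_mul, Nat.cast_mul, Prod.snd_zero]
        rw [mul_comm (j : ZMod (p * t))]
        exact this
    · intro h0
      exact t_ne hp ht (congrArg Prod.fst h0)

lemma sub_inj : ∀ i j : ℕ, i < j → j ≤ p → sub p t i ≠ sub p t j := by
  intro i j hij hj h
  have hp0 : (p : ℤ) ≠ 0 := by exact_mod_cast hp.ne_zero
  have ht0 : (t : ℤ) ≠ 0 := by exact_mod_cast ht.ne'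
  have hi : i ≠ p := by omega
  have hcan : ∀ z : ℤ, (p : ℤ) * t ∣ z * t → (p : ℤ) ∣ z := fun z hz =>
    Int.dvd_of_mul_dvd_mul_right ht0 hz
  by_cases hjp : j = p
  · have hm : ((0 : ZMod (p * t)), (t : ZMod (p * t))) ∈ sub p t i := by
      rw [h]
      unfold sub
      rw [if_pos hjp]
      exact mem_zmultiples _
    unfold sub at hm
    rw [if_neg hi, mem_zmultiples_iff] at hm
    obtain ⟨n, hn⟩ := hm
    have h1 := congrArg Prod.fst hn
    have h2 := congrArg Prod.snd hn
    simp only [Prod.smul_mk, zsmul_eq_mul] at h1 h2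
    have h3 : (p : ℤ) ∣ n := by
      apply hcan
      rw [← hdv]
      push_cast
      exact h1
    have h4 : (p : ℤ) ∣ n * i - 1 := by
      apply hcan
      rw [← hdv]
      push_cast at h2 ⊢
      linear_combination h2
    have h5 : (p : ℤ) ∣ 1 := by
      have := dvd_sub (Dvd.dvd.mul_right h3 (i : ℤ)) h4
      simpa using this
    have h6 : (p : ℤ) = 1 := by
      exact Int.eq_one_of_dvd_one (by positivity) h5
    have := hp.one_lt
    omega
  · have hm : ((t : ZMod (p * t)), ((j * t : ℕ) : ZMod (p * t))) ∈ sub p t i := by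
      rw [h]
      unfold sub
      rw [if_neg hjp]
      exact mem_zmultiples _
    unfold sub at hm
    rw [if_neg hi, mem_zmultiples_iff] at hm
    obtain ⟨n, hn⟩ := hm
    have h1 := congrArg Prod.fst hn
    have h2 := congrArg Prod.snd hn
    simp only [Prod.smul_mk, zsmul_eq_mul] at h1 h2
    have h3 : (p : ℤ) ∣ n - 1 := by
      apply hcan
      rw [← hdv]
      push_cast
      linear_combination h1
    have h4 : (p : ℤ) ∣ n * i - j := by
      apply hcan
      rw [← hdv]
      push_cast at h2 ⊢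
      linear_combination h2
    have h5 : (p : ℤ) ∣ (j : ℤ) - i := by
      have := dvd_sub h4 (Dvd.dvd.mul_right h3 (i : ℤ))
      rw [← dvd_neg]
      convert this using 1
      ring
    have h6 := Int.le_of_dvd (by omega) h5
    omega

/-- The set of subgroups of order `p`. -/
def subs (p d : ℕ) : Set (AddSubgroup (K d)) := {G | Nat.card G = p}

lemma subs_finite : (subs p (p * t)).Finite := by
  have : NeZero (p * t) := ⟨(Nat.mul_pos hp.pos ht).ne'⟩
  exact Set.toFinite _

lemma card_subs : p + 1 ≤ (subs_finite hp ht).toFinset.card := by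
  rw [← Finset.card_range (p + 1)]
  apply Finset.card_le_card_of_injOn (sub p t)
  · intro j _
    simp only [Set.Finite.coe_toFinset]
    exact card_sub hp ht j
  · intro i hi j hj h
    simp only [Finset.coe_range, Set.mem_Iio] at hi hj
    by_contra hne
    rcases lt_or_gt_of_ne hne with h1 | h1
    · exact sub_inj hp ht i j h1 (by omega) h
    · exact sub_inj hp ht j i h1 (by omega) h.symm


omit ht in
lemma rho_pos (u : K (p * t)) {G : AddSubgroup (K (p * t))} (hG : Nat.card G = p) :
    0 < rho u G ∧ rho u G ≤ p := by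
  rcases rho_cases hp u hG with ⟨h, -⟩ | ⟨h, -⟩
  · rw [h]; exact ⟨one_pos, hp.one_lt.le⟩
  · rw [h]; exact ⟨hp.pos, le_rfl⟩

omit ht in
lemma mu_pos (u : K (p * t)) {G : AddSubgroup (K (p * t))} (hG : Nat.card G = p) :
    1 ≤ mu u G := by
  rcases mu_cases hp u hG with ⟨h, -⟩ | ⟨h, -⟩
  · rw [h]
  · rw [h]; exact hp.one_lt.le

/-- The exponents `m/r` have average at least one. -/
lemma sum_exp (u : K (p * t)) :
    (p : ℚ) + 1 ≤ ∑ G ∈ (subs_finite hp ht).toFinset, (mu u G : ℚ) / rho u G := by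
  classical
  have hp1 : (0 : ℚ) < p := by exact_mod_cast hp.pos
  have hcard : (p : ℚ) + 1 ≤ (subs_finite hp ht).toFinset.card := by
    exact_mod_cast card_subs hp ht
  have hmem : ∀ G ∈ (subs_finite hp ht).toFinset, Nat.card G = p := fun G hG => by
    simpa [subs] using hG
  by_cases hall : ∀ G ∈ (subs_finite hp ht).toFinset, rho u G = 1
  · calc (p : ℚ) + 1 ≤ (subs_finite hp ht).toFinset.card := hcard
      _ = ∑ G ∈ (subs_finite hp ht).toFinset, (1 : ℚ) := by simp
      _ ≤ _ := by
        apply Finset.sum_le_sum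
        intro G hG
        rw [hall G hG]
        have := mu_pos hp u (hmem G hG)
        simp only [Nat.cast_one, div_one]
        exact_mod_cast this
  · push Not at hall
    obtain ⟨G0, hG0, hr0⟩ := hall
    have hd : p ∣ addOrderOf u := by
      rcases rho_cases hp u (hmem G0 hG0) with ⟨h, -⟩ | ⟨-, h⟩
      · exact absurd h hr0
      · exact p_dvd_of_ne hp (hmem G0 hG0) h
    have hpos : 0 < addOrderOf u := by
      apply Nat.pos_of_ne_zero
      intro h0
      have h1 : addOrderOf u ∣ p * t := addOrderOf_dvd_of_nsmul_eq_zero (nsmul_all u)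
      rw [h0] at h1
      exact (Nat.mul_pos hp.pos ht).ne' (Nat.eq_zero_of_zero_dvd h1)
    set U : AddSubgroup (K (p * t)) := zmultiples ((addOrderOf u / p) • u) with hU
    have hUle : U ≤ zmultiples u := by
      rw [hU, zmultiples_le]
      exact nsmul_mem (mem_zmultiples u) _
    have hUc : Nat.card U = p := by
      rw [hU, Nat.card_zmultiples, addOrderOf_nsmul' _ (Nat.div_pos (Nat.le_of_dvd hpos hd)
        hp.pos).ne', Nat.gcd_eq_right (Nat.div_dvd_of_dvd hd), Nat.div_div_self hd hpos.ne']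
    have hUm : U ∈ (subs_finite hp ht).toFinset := by
      simpa [subs] using hUc
    have hUmu : mu u U = p := by
      rcases mu_cases hp u hUc with ⟨-, h⟩ | ⟨h, -⟩
      · exact absurd hUle h
      · exact h
    have hUrho : rho u U = 1 := by
      rcases rho_cases hp u hUc with ⟨h, -⟩ | ⟨-, y, hy, h⟩
      · exact h
      · exact absurd (pair_of_mem (hUle hy)) h
    rw [← Finset.add_sum_erase _ _ hUm, hUmu, hUrho]
    have h2 : (1 : ℚ) ≤ ∑ G ∈ (subs_finite hp ht).toFinset.erase U, (mu u G : ℚ) / rho u G := by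
      calc (1 : ℚ) ≤ ((subs_finite hp ht).toFinset.erase U).card * (1 / p : ℚ) := by
            rw [Finset.card_erase_of_mem hUm, mul_one_div, le_div_iff₀ hp1, one_mul]
            have h3 := card_subs hp ht
            have h4 : p ≤ (subs_finite hp ht).toFinset.card - 1 := by omega
            exact_mod_cast h4
        _ = ∑ G ∈ (subs_finite hp ht).toFinset.erase U, (1 / p : ℚ) := by simp
        _ ≤ _ := by
          apply Finset.sum_le_sum
          intro G hG
          have hGm := hmem G (Finset.mem_of_mem_erase hG)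
          have h5 := mu_pos hp u hGm
          have h6 := rho_pos hp u hGm
          have h7 : (1 : ℚ) ≤ mu u G := by exact_mod_cast h5
          have h8 : (0 : ℚ) < rho u G := by exact_mod_cast h6.1
          have h9 : (rho u G : ℚ) ≤ p := by exact_mod_cast h6.2
          exact div_le_div₀ (by linarith) h7 h8 h9
    simp only [Nat.cast_one, div_one]
    linarith

end

/-- Paramodular forms: `Form t` are the forms of level `t` which do not vanish identically and whose
zeros lie on Humbert surfaces, `wt` is the weight and `ord F g` the order at the 1-cusp `g`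
(the vectors of divisor `g`, for `g ∣ t`).

`norm` (Gritsenko and Nikulin, *multiplicative symmetrisation*): the product of the pull-backs
`F(A/G)` over the subgroups `G` of order `p` of the group `K(θ) = (ℤ/pt)²` of a polarisation of type
`(1,pt)` is a form of level `pt`. At a vector `v` of divisor `g`, with `u = v/g` in `K(θ)`, the
lattice of `A/G` contains `v` as `m` times a primitive vector of divisor `g/(m r)`, and the
transvection of `v` is the power `m/r` of the one of this vector. -/
structure Forms where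
  Form : ℕ → Type
  wt : ∀ {t : ℕ}, Form t → ℕ
  ord : ∀ {t : ℕ}, Form t → ℕ → ℕ
  norm : ∀ {p t : ℕ}, p.Prime → 0 < t → ∀ F : Form t, ∃ F' : Form (p * t),
    wt F' = (p + 1) * wt F ∧
    ∀ u : K (p * t), (ord F' (addOrderOf u) : ℚ) =
      ∑ᶠ G ∈ subs p (p * t), (mu u G / rho u G : ℚ) * ord F (addOrderOf u / (mu u G * rho u G))

namespace Forms

/-- All divisors are orders of elements. -/
lemma exists_order {d g : ℕ} (hd : 0 < d) (hg : g ∣ d) : ∃ u : K d, addOrderOf u = g := by
  obtain ⟨c, rfl⟩ := hg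
  have hg0 : 0 < g := Nat.pos_of_ne_zero (by rintro rfl; simp at hd)
  have hc0 : 0 < c := Nat.pos_of_ne_zero (by rintro rfl; simp at hd)
  refine ⟨((c : ZMod (g * c)), 0), ?_⟩
  rw [Prod.addOrderOf_mk, addOrderOf_zero, Nat.lcm_one_right, ZMod.addOrderOf_coe _ hd.ne',
    Nat.gcd_mul_left_left, Nat.mul_div_cancel _ hc0]

/-- The orders of the norm. -/
lemma norm_ord (S : Forms) {p t c : ℕ} (hp : p.Prime) (ht : 0 < t) (F : S.Form t)
    (hF : ∀ g, g ∣ t → c ≤ S.ord F g) :
    ∃ F' : S.Form (p * t), S.wt F' = (p + 1) * S.wt F ∧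
      ∀ g, g ∣ p * t → (p + 1) * c ≤ S.ord F' g := by
  obtain ⟨F', hw, ho⟩ := S.norm hp ht F
  refine ⟨F', hw, fun g hg => ?_⟩
  obtain ⟨u, rfl⟩ := exists_order (Nat.mul_pos hp.pos ht) hg
  have h1 := ho u
  rw [finsum_mem_eq_finite_toFinset_sum _ (subs_finite hp ht)] at h1
  have h2 : ((p : ℚ) + 1) * c ≤ S.ord F' (addOrderOf u) := by
    rw [h1]
    calc ((p : ℚ) + 1) * c
        ≤ (∑ G ∈ (subs_finite hp ht).toFinset, (mu u G : ℚ) / rho u G) * c :=
          mul_le_mul_of_nonneg_right (sum_exp hp ht u) (Nat.cast_nonneg _)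
      _ = ∑ G ∈ (subs_finite hp ht).toFinset, (mu u G : ℚ) / rho u G * c := Finset.sum_mul _ _ _
      _ ≤ _ := by
        apply Finset.sum_le_sum
        intro G hG
        have hGc : Nat.card G = p := by simpa [subs] using hG
        apply mul_le_mul_of_nonneg_left _ (by positivity)
        exact_mod_cast hF _ (div_dvd hp ht u hGc)
  exact_mod_cast h2

/-- The lift of a form of level `t` to level `d = n t`. -/
theorem lift (S : Forms) {t c : ℕ} (ht : 0 < t) (F : S.Form t)
    (hF : ∀ g, g ∣ t → c ≤ S.ord F g) (n : ℕ) (hn : 0 < n) :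
    ∀ d, d = n * t → ∃ (F' : S.Form d) (M : ℕ), 0 < M ∧ S.wt F' = M * S.wt F ∧
      ∀ g, g ∣ d → M * c ≤ S.ord F' g := by
  induction n using induction_on_primes with
  | zero => omega
  | one =>
    rintro d hd
    rw [one_mul] at hd
    subst hd
    exact ⟨F, 1, one_pos, by simp, fun g hg => by simpa using hF g hg⟩
  | prime_mul p n hp ih =>
    rintro d hd
    have hn0 : 0 < n := Nat.pos_of_ne_zero (by rintro rfl; simp at hn)
    obtain ⟨F', M, hM, hw, ho⟩ := ih hn0 (n * t) rfl
    obtain ⟨F'', hw', ho'⟩ := S.norm_ord hp (Nat.mul_pos hn0 ht) F' ho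
    rw [mul_assoc] at hd
    subst hd
    refine ⟨F'', (p + 1) * M, by positivity, by rw [hw', hw, mul_assoc], fun g hg => ?_⟩
    rw [mul_assoc]
    exact ho' g hg

/-- The bound for the discriminant: if the pull-back of every form of level `d` satisfies
`∑ w_i m_i ord(F, g_i) ≤ h wt F` (`h` the degree of the Hodge bundle), then a form of level
`t ∣ d` with order at least one at all the 1-cusps gives `∑ w_i m_i ≤ h wt F`. -/
theorem slope (S : Forms) {ι : Type} [Fintype ι] {d t h : ℕ} (hd : 0 < d) (htd : t ∣ d)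
    (a g : ι → ℕ) (hg : ∀ i, g i ∣ d)
    (hodge : ∀ F : S.Form d, ∑ i, a i * S.ord F (g i) ≤ h * S.wt F)
    (F : S.Form t) (hF : ∀ g, g ∣ t → 1 ≤ S.ord F g) :
    ∑ i, a i ≤ h * S.wt F := by
  obtain ⟨n, rfl⟩ := htd
  have ht : 0 < t := Nat.pos_of_ne_zero (by rintro rfl; simp at hd)
  have hn : 0 < n := Nat.pos_of_ne_zero (by rintro rfl; simp at hd)
  obtain ⟨F', M, hM, hw, ho⟩ := S.lift ht F hF n hn (t * n) (mul_comm _ _)
  have h1 := hodge F'
  have h2 : ∑ i, a i * (M * 1) ≤ ∑ i, a i * S.ord F' (g i) :=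
    Finset.sum_le_sum fun i _ => Nat.mul_le_mul_left _ (ho _ (hg i))
  rw [← Finset.sum_mul, mul_one] at h2
  rw [hw] at h1
  have h3 : (∑ i, a i) * M ≤ (h * S.wt F) * M := by
    calc (∑ i, a i) * M ≤ h * (M * S.wt F) := h2.trans h1
      _ = _ := by ring
  exact Nat.le_of_mul_le_mul_right h3 hM

end Forms

end H34.ED
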