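import Mathlib

/-!
# Nodes and cusps: no real multiplication, no constant Hodge structure

`L = ℤ⁴` with a nondegenerate alternating form `E`, a group `Γ` of isometries which is generated by
nodes (transvections) and cusps (elements of order six with `T - 1` of rank two), such that every
invariant alternating form is a multiple of `E`.
-/

namespace H34.ED

/-- The lattice. -/
abbrev L := Fin 4 → ℤ

/-- The real space of the lattice. -/
abbrev V := Fin 4 → ℝ

/-- The inclusion of the lattice. -/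
def inc (x : L) : V := fun i => (x i : ℝ)

/-- The Picard–Lefschetz transvection of a vector `v` of divisor `g`. -/
def Node (E : L →ₗ[ℤ] L →ₗ[ℤ] ℤ) (T : L → L) (g : ℕ) : Prop :=
  0 < g ∧ ∃ v : L, v ≠ 0 ∧ ∀ x, ∃ a : ℤ, T x = x + a • v ∧ E x v = g * a

/-- The monodromy of a cusp: `T c = e`, `T e = e - c` on a plane on which `E` is `g` times the
unimodular form, the identity on the orthogonal complement. -/
def Cusp (E : L →ₗ[ℤ] L →ₗ[ℤ] ℤ) (T : L → L) (g : ℕ) : Prop :=
  0 < g ∧ ∃ c e : L, E c e = g ∧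
    ∀ x, ∃ a b : ℤ, T x = x + a • c + b • e ∧ E x e = g * b ∧ E x c = g * (a + b)

section alg
variable {E : L →ₗ[ℤ] L →ₗ[ℤ] ℤ} (hE : ∀ x, E x x = 0) (hnd : ∀ y, (∀ x, E x y = 0) → y = 0)
  {B : L →ₗ[ℤ] L →ₗ[ℤ] ℤ} (hB : ∀ x, B x x = 0)

lemma alt_swap (hE : ∀ x, E x x = 0) (x y : L) : E x y = - E y x := by
  have h := hE (x + y)
  simp only [map_add, LinearMap.add_apply, hE] at h
  linarith

include hE in
lemma cusp_vals {T : L → L} {g : ℕ} (hg : 0 < g) {c e : L} (hce : E c e = g)
    (hT : ∀ x, ∃ a b : ℤ, T x = x + a • c + b • e ∧ E x e = g * b ∧ E x c = g * (a + b)) :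
    T c = e ∧ T e = e - c := by
  have hg' : (g : ℤ) ≠ 0 := by exact_mod_cast hg.ne'
  constructor
  · obtain ⟨a, b, h1, h2, h3⟩ := hT c
    rw [hce] at h2
    rw [hE] at h3
    have hb : b = 1 := by
      have : (g : ℤ) * b = g * 1 := by linarith
      exact mul_left_cancel₀ hg' this
    have ha : a = -1 := by
      have : a + b = 0 := by
        rcases mul_eq_zero.1 h3.symm with h | h
        · exact absurd h hg'
        · exact h
      linarith
    rw [h1, ha, hb]
    module
  · obtain ⟨a, b, h1, h2, h3⟩ := hT e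
    rw [hE] at h2
    rw [alt_swap hE, hce] at h3
    have hb : b = 0 := by
      rcases mul_eq_zero.1 h2.symm with h | h
      · exact absurd h hg'
      · exact h
    have ha : a = -1 := by
      have : (g : ℤ) * (a + b) = g * (-1) := by linarith
      have := mul_left_cancel₀ hg' this
      linarith
    rw [h1, ha, hb]
    module

include hE hnd hB in
/-- A node does not reverse the sign of a nonzero alternating form. -/
lemma node_anti {T : L → L} {g : ℕ} (hT : Node E T g)
    (h : ∀ x y, B (T x) (T y) = - B x y) : B = 0 := by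
  obtain ⟨hg, v, hv, hT⟩ := hT
  have hg' : (g : ℤ) ≠ 0 := by exact_mod_cast hg.ne'
  obtain ⟨x0, hx0⟩ : ∃ x, E x v ≠ 0 := by
    by_contra hcon
    push Not at hcon
    exact hv (hnd v hcon)
  have hfix : ∀ y, E y v = 0 → T y = y := by
    intro y hy
    obtain ⟨a, h1, h2⟩ := hT y
    rw [hy] at h2
    have : a = 0 := (mul_eq_zero.1 h2.symm).resolve_left hg'
    rw [h1, this]
    simp
  have h1 : ∀ y z, E y v = 0 → E z v = 0 → B y z = 0 := by
    intro y z hy hz
    have := h y z
    rw [hfix y hy, hfix z hz] at this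
    linarith
  have h2 : ∀ y, E y v = 0 → B x0 y = 0 := by
    intro y hy
    obtain ⟨a, h3, -⟩ := hT x0
    have := h x0 y
    rw [hfix y hy, h3] at this
    simp only [map_add, LinearMap.add_apply, map_smul, LinearMap.smul_apply, smul_eq_mul] at this
    rw [h1 v y (hE v) hy] at this
    linarith
  have h3 : ∀ x, E (E x0 v • x - E x v • x0) v = 0 := by
    intro x
    simp only [map_sub, LinearMap.sub_apply, map_smul, LinearMap.smul_apply, smul_eq_mul]
    ring
  have h4 : ∀ x y, B x y = 0 := by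
    intro x y
    have e1 := h1 _ _ (h3 x) (h3 y)
    have e2 := h2 _ (h3 y)
    have e3 := h2 _ (h3 x)
    have e4 := alt_swap hB x x0
    simp only [map_sub, LinearMap.sub_apply, map_smul, LinearMap.smul_apply, smul_eq_mul, hB] at e1 e2 e3
    have e5 : E x0 v * (E x0 v * B x y) = 0 := by
      have e6 : E x0 v * B x0 x = 0 := by linarith
      have e7 : E x0 v * B x0 y = 0 := by linarith
      rw [e4] at e1
      linear_combination e1 - E y v * e6 + E x v * e7
    have := (mul_eq_zero.1 e5).resolve_left hx0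
    exact (mul_eq_zero.1 this).resolve_left hx0
  ext x y
  simp [h4]

include hE hB in
/-- A cusp does not reverse the sign of a nonzero alternating form. -/
lemma cusp_anti {T : L → L} {g : ℕ} (hT : Cusp E T g)
    (h : ∀ x y, B (T x) (T y) = - B x y) : B = 0 := by
  obtain ⟨hg, c, e, hce, hT⟩ := hT
  have hg' : (g : ℤ) ≠ 0 := by exact_mod_cast hg.ne'
  obtain ⟨hTc, hTe⟩ := cusp_vals hE hg hce hT
  have hfix : ∀ y, E y e = 0 → E y c = 0 → T y = y := by
    intro y hy1 hy2
    obtain ⟨a, b, h1, h2, h3⟩ := hT y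
    rw [hy1] at h2
    rw [hy2] at h3
    have hb : b = 0 := (mul_eq_zero.1 h2.symm).resolve_left hg'
    have hab : a + b = 0 := (mul_eq_zero.1 h3.symm).resolve_left hg'
    have ha : a = 0 := by linarith
    rw [h1, ha, hb]
    simp
  have h1 : ∀ y z, (E y e = 0 ∧ E y c = 0) → (E z e = 0 ∧ E z c = 0) → B y z = 0 := by
    intro y z hy hz
    have := h y z
    rw [hfix y hy.1 hy.2, hfix z hz.1 hz.2] at this
    linarith
  have h2 : B c e = 0 := by
    have := h c e
    rw [hTc, hTe] at this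
    simp only [map_sub, hB] at this
    rw [alt_swap hB e c] at this
    linarith
  have h3 : ∀ y, (E y e = 0 ∧ E y c = 0) → B c y = 0 ∧ B e y = 0 := by
    intro y hy
    have e1 := h c y
    have e2 := h e y
    rw [hfix y hy.1 hy.2, hTc] at e1
    rw [hfix y hy.1 hy.2, hTe] at e2
    simp only [map_sub, LinearMap.sub_apply] at e2
    constructor <;> linarith
  have h4 : ∀ x, ∃ (y : L) (r s : ℤ), (E y e = 0 ∧ E y c = 0) ∧ x = y + r • c + s • e := by
    intro x
    obtain ⟨a, b, -, e2, e3⟩ := hT x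
    refine ⟨x - b • c + (a + b) • e, b, -(a + b), ⟨?_, ?_⟩, by module⟩
    · simp only [map_add, map_sub, LinearMap.add_apply, LinearMap.sub_apply, map_smul,
        LinearMap.smul_apply, smul_eq_mul, hce, hE, e2]
      ring
    · simp only [map_add, map_sub, LinearMap.add_apply, LinearMap.sub_apply, map_smul,
        LinearMap.smul_apply, smul_eq_mul, hE, e3, alt_swap hE e c, hce]
      ring
  refine LinearMap.ext fun x => LinearMap.ext fun z => ?_
  obtain ⟨y, r, s, hy, rfl⟩ := h4 x
  obtain ⟨y', r', s', hy', rfl⟩ := h4 z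
  have e1 := h1 y y' hy hy'
  obtain ⟨e2, e3⟩ := h3 y hy
  obtain ⟨e4, e5⟩ := h3 y' hy'
  simp only [map_add, LinearMap.add_apply, map_smul, LinearMap.smul_apply, smul_eq_mul,
    LinearMap.zero_apply, hB, alt_swap hB e c, alt_swap hB y c, alt_swap hB y e, e1, e2, e3, e4, e5,
    h2]
  ring

end alg

/-- The monodromy: a group acting by isometries of `E`, generated by nodes and cusps, whose invariant
alternating forms are the multiples of `E`. -/
structure Mono {Γ : Type*} [Group Γ] (E : L →ₗ[ℤ] L →ₗ[ℤ] ℤ) (ρ : Γ →* (L ≃ₗ[ℤ] L))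
    (M : Set Γ) : Prop where
  alt : ∀ x, E x x = 0
  nd : ∀ y, (∀ x, E x y = 0) → y = 0
  isom : ∀ γ x y, E (ρ γ x) (ρ γ y) = E x y
  ne : M.Nonempty
  gen : Subgroup.closure M = ⊤
  mer : ∀ γ ∈ M, ∃ g, Node E (ρ γ) g ∨ Cusp E (ρ γ) g
  inv : ∀ B : L →ₗ[ℤ] L →ₗ[ℤ] ℤ, (∀ x, B x x = 0) → (∀ γ x y, B (ρ γ x) (ρ γ y) = B x y) →
    ∃ a b : ℤ, a ≠ 0 ∧ a • B = b • E

namespace Mono
variable {Γ : Type*} [Group Γ] {E : L →ₗ[ℤ] L →ₗ[ℤ] ℤ} {ρ : Γ →* (L ≃ₗ[ℤ] L)} {M : Set Γ}

/-- The group does not act by signs on an alternating form which is not a multiple of `E`: the image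
of the period map is not in a Humbert surface. -/
theorem noRM (H : Mono E ρ M) (B : L →ₗ[ℤ] L →ₗ[ℤ] ℤ) (hB : ∀ x, B x x = 0)
    (hs : ∀ γ, (∀ x y, B (ρ γ x) (ρ γ y) = B x y) ∨ (∀ x y, B (ρ γ x) (ρ γ y) = - B x y)) :
    ∃ a b : ℤ, a ≠ 0 ∧ a • B = b • E := by
  by_cases h0 : B = 0
  · exact ⟨1, 0, one_ne_zero, by rw [h0]; simp⟩
  apply H.inv B hB
  let S : Subgroup Γ :=
    { carrier := {γ | ∀ x y, B (ρ γ x) (ρ γ y) = B x y}
      mul_mem' := by
        intro a b ha hb x y
        rw [map_mul, LinearEquiv.mul_apply, LinearEquiv.mul_apply, ha, hb]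
      one_mem' := by
        intro x y
        rw [map_one]
        rfl
      inv_mem' := by
        intro a ha x y
        have := ha (ρ a⁻¹ x) (ρ a⁻¹ y)
        rw [← LinearEquiv.mul_apply, ← LinearEquiv.mul_apply, ← map_mul, mul_inv_cancel,
          map_one] at this
        exact this.symm }
  have hS : S = ⊤ := by
    rw [eq_top_iff, ← H.gen, Subgroup.closure_le]
    intro γ hγ
    rcases hs γ with h | h
    · exact h
    · exfalso
      obtain ⟨g, hg | hg⟩ := H.mer γ hγ
      · exact h0 (node_anti H.alt H.nd hB hg h)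
      · exact h0 (cusp_anti H.alt hB hg h)
  intro γ
  have : γ ∈ S := by rw [hS]; trivial
  exact this

end Mono

end H34.ED
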